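import Pool.Agent.helper28.OC.Base

/-!
OC project, module AB: algebra of functions with an absolutely bounded Fourier expansion.
-/

open scoped BigOperators

namespace Pool.Agent.helper28.OC

open L1G

section AB
variable {Ω : Type*} [AddCommGroup Ω] [Finite Ω]

theorem AB_of_index {ι : Type*} [Fintype ι] (f : Ω → ℂ) (a : ι → ℂ) (χ : ι → AddChar Ω ℂ)
    (hf : ∀ w, f w = ∑ i, a i * χ i w) {C : ℝ} (hC : ∑ i, ‖a i‖ ≤ C) : AB f C := by
  classical
  refine ⟨fun ψ => ∑ i with χ i = ψ, a i, fun w => ?_, ?_⟩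
  · rw [hf w, ← Finset.sum_fiberwise (s := Finset.univ) (g := χ)]
    refine Finset.sum_congr rfl fun ψ _ => ?_
    rw [Finset.sum_mul]
    refine Finset.sum_congr rfl fun i hi => ?_
    rw [(Finset.mem_filter.1 hi).2]
  · calc ∑ ψ, ‖∑ i with χ i = ψ, a i‖ ≤ ∑ ψ, ∑ i with χ i = ψ, ‖a i‖ :=
          Finset.sum_le_sum fun ψ _ => norm_sum_le _ _
      _ = ∑ i, ‖a i‖ := Finset.sum_fiberwise (s := Finset.univ) (g := χ) (f := fun i => ‖a i‖)
      _ ≤ C := hC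

/-- module AB (independent): algebra of `AB` -/
theorem AB_norm_le {f : Ω → ℂ} {C : ℝ} (h : AB f C) (w : Ω) : ‖f w‖ ≤ C := by
  obtain ⟨c, h1, h2⟩ := h
  rw [h1 w]
  refine (norm_sum_le _ _).trans (le_trans (le_of_eq ?_) h2)
  refine Finset.sum_congr rfl fun ψ _ => ?_
  rw [norm_mul, AddChar.norm_apply, mul_one]

theorem AB_mono {f : Ω → ℂ} {C D : ℝ} (h : AB f C) (hCD : C ≤ D) : AB f D := by
  obtain ⟨c, h1, h2⟩ := h
  exact ⟨c, h1, h2.trans hCD⟩

theorem AB_nonneg {f : Ω → ℂ} {C : ℝ} (h : AB f C) : 0 ≤ C := by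
  obtain ⟨c, -, h2⟩ := h
  exact (Finset.sum_nonneg fun _ _ => norm_nonneg _).trans h2

theorem AB_add {f g : Ω → ℂ} {C D : ℝ} (hf : AB f C) (hg : AB g D) :
    AB (fun w => f w + g w) (C + D) := by
  obtain ⟨c, h1, h2⟩ := hf
  obtain ⟨d, h3, h4⟩ := hg
  refine ⟨fun ψ => c ψ + d ψ, fun w => ?_, ?_⟩
  · change f w + g w = ∑ ψ, (c ψ + d ψ) * ψ w
    rw [h1 w, h3 w, ← Finset.sum_add_distrib]
    exact Finset.sum_congr rfl fun ψ _ => by ring
  · calc ∑ ψ, ‖c ψ + d ψ‖ ≤ ∑ ψ, (‖c ψ‖ + ‖d ψ‖) := Finset.sum_le_sum fun ψ _ => norm_add_le _ _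
      _ ≤ C + D := by rw [Finset.sum_add_distrib]; exact add_le_add h2 h4

theorem AB_smul {f : Ω → ℂ} {C : ℝ} (c : ℂ) (hf : AB f C) : AB (fun w => c * f w) (‖c‖ * C) := by
  obtain ⟨d, h1, h2⟩ := hf
  refine ⟨fun ψ => c * d ψ, fun w => ?_, ?_⟩
  · change c * f w = ∑ ψ, (c * d ψ) * ψ w
    rw [h1 w, Finset.mul_sum]
    exact Finset.sum_congr rfl fun ψ _ => by ring
  · simp_rw [norm_mul]
    rw [← Finset.mul_sum]
    exact mul_le_mul_of_nonneg_left h2 (norm_nonneg _)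

theorem AB_sub {f g : Ω → ℂ} {C D : ℝ} (hf : AB f C) (hg : AB g D) :
    AB (fun w => f w - g w) (C + D) := by
  have h := AB_add hf (AB_smul (-1) hg)
  simp only [norm_neg, norm_one, one_mul, neg_mul] at h
  simpa [sub_eq_add_neg] using h

theorem AB_mul {f g : Ω → ℂ} {C D : ℝ} (hf : AB f C) (hg : AB g D) :
    AB (fun w => f w * g w) (C * D) := by
  have hD := AB_nonneg hg
  obtain ⟨c, h1, h2⟩ := hf
  obtain ⟨d, h3, h4⟩ := hg
  refine AB_of_index (ι := AddChar Ω ℂ × AddChar Ω ℂ) _ (fun q => c q.1 * d q.2)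
    (fun q => q.1 * q.2) (fun w => ?_) ?_
  · rw [h1 w, h3 w, Finset.sum_mul_sum, Fintype.sum_prod_type]
    refine Finset.sum_congr rfl fun ψ _ => Finset.sum_congr rfl fun χ _ => ?_
    rw [AddChar.mul_apply]
    ring
  · simp_rw [norm_mul]
    rw [Fintype.sum_prod_type]
    change ∑ x, ∑ y, ‖c x‖ * ‖d y‖ ≤ C * D
    rw [← Finset.sum_mul_sum]
    exact mul_le_mul h2 h4 (Finset.sum_nonneg fun _ _ => norm_nonneg _)
      ((Finset.sum_nonneg fun _ _ => norm_nonneg _).trans h2)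

theorem AB_star {f : Ω → ℂ} {C : ℝ} (hf : AB f C) : AB (fun w => star (f w)) C := by
  obtain ⟨c, h1, h2⟩ := hf
  refine AB_of_index _ (fun ψ => star (c ψ)) (fun ψ => ψ⁻¹) (fun w => ?_) ?_
  · rw [h1 w, star_sum]
    refine Finset.sum_congr rfl fun ψ _ => ?_
    rw [star_mul', AddChar.inv_apply', AddChar.inv_apply_eq_conj]
    rfl
  · simpa using h2

theorem AB_const (c : ℂ) : AB (fun _ : Ω => c) ‖c‖ := by
  refine AB_of_index (ι := Unit) _ (fun _ => c) (fun _ => 1) (fun w => ?_) ?_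
  · simp
  · simp

theorem AB_sum {ι : Type*} (s : Finset ι) {f : ι → Ω → ℂ} {C : ι → ℝ}
    (hf : ∀ i ∈ s, AB (f i) (C i)) : AB (fun w => ∑ i ∈ s, f i w) (∑ i ∈ s, C i) := by
  classical
  induction s using Finset.induction_on with
  | empty => simpa using AB_const (Ω := Ω) 0
  | insert a s ha ih =>
    simp_rw [Finset.sum_insert ha]
    exact AB_add (hf a (Finset.mem_insert_self a s))
      (ih fun i hi => hf i (Finset.mem_insert_of_mem hi))

theorem AB_pow {f : Ω → ℂ} {C : ℝ} (hf : AB f C) (k : ℕ) : AB (fun w => f w ^ k) (C ^ k) := by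
  induction k with
  | zero => simpa using AB_const (Ω := Ω) 1
  | succ k ih =>
    simp_rw [pow_succ]
    exact AB_mul ih hf

theorem AB_comp {Ω' : Type*} [AddCommGroup Ω'] [Finite Ω'] {f : Ω → ℂ} {C : ℝ} (hf : AB f C)
    (e : Ω' →+ Ω) (w₀ : Ω) : AB (fun w => f (w₀ + e w)) C := by
  obtain ⟨c, h1, h2⟩ := hf
  refine AB_of_index _ (fun ψ => c ψ * ψ w₀) (fun ψ => ψ.compAddMonoidHom e) (fun w => ?_) ?_
  · rw [h1]
    refine Finset.sum_congr rfl fun ψ _ => ?_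
    rw [AddChar.map_add_eq_mul, AddChar.compAddMonoidHom_apply]
    ring
  · simp_rw [norm_mul, AddChar.norm_apply, mul_one]
    exact h2

end AB

end Pool.Agent.helper28.OC
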