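import Pool.Agent.helper28.OC.Base
import Pool.Agent.helper93.CV.AB

/-!
CV project, module P2: `AB` bounds for `wN`, `hN`, `f0`, `aa` and the second moment of `zf`.
-/

open scoped BigOperators

namespace Pool.Agent.helper28.OC

open L1G

theorem P2_u_mem {q : ℂ} {ε : ℝ} (hε : 0 < ε) (hq : ‖q‖ ≤ ε) :
    0 ≤ ‖q‖ ^ 2 / ε ^ 2 ∧ ‖q‖ ^ 2 / ε ^ 2 ≤ 1 := by
  refine ⟨by positivity, ?_⟩
  rw [div_le_one (by positivity)]
  exact pow_le_pow_left₀ (norm_nonneg _) hq 2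

/-- module P2 (needs AB): `0 ≤ wN ≤ 1`, `‖hN‖ = wN` and the `AB` bounds -/
theorem P2_wN_mem (q : ℂ) (ε : ℝ) (N : ℕ) (hε : 0 < ε) (hq : ‖q‖ ≤ ε) :
    0 ≤ wN ε N q ∧ wN ε N q ≤ 1 ∧ ‖hN ε N q‖ = wN ε N q := by
  obtain ⟨h0, h1⟩ := P2_u_mem hε hq
  unfold wN hN
  set u : ℝ := ‖q‖ ^ 2 / ε ^ 2 with hu
  have hp : 0 ≤ (1 - u) ^ N := pow_nonneg (by linarith) N
  have hp1 : (1 - u) ^ N ≤ 1 := pow_le_one₀ (by linarith) (by linarith)
  refine ⟨by linarith, by linarith, ?_⟩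
  have hS : (∑ j ∈ Finset.range N, ((1 - u : ℝ) : ℂ) ^ j)
      = ((∑ j ∈ Finset.range N, (1 - u) ^ j : ℝ) : ℂ) := by push_cast; rfl
  have hS0 : 0 ≤ ∑ j ∈ Finset.range N, (1 - u) ^ j :=
    Finset.sum_nonneg fun j _ => pow_nonneg (by linarith) j
  rw [hS, norm_mul, Complex.norm_real, Real.norm_of_nonneg hS0, norm_div, norm_pow, norm_pow,
    Complex.norm_real, Real.norm_of_nonneg hε.le, ← hu]
  have := mul_neg_geom_sum (1 - u) N
  rw [sub_sub_cancel] at this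
  exact this

section
variable {Ω : Type*} [AddCommGroup Ω] [Finite Ω]

theorem P2_AB_nsq {q : Ω → ℂ} {ε : ℝ} (hq : AB q ε) :
    AB (fun w => ((‖q w‖ ^ 2 : ℝ) : ℂ)) (ε ^ 2) := by
  have h := AB_mul hq (AB_star hq)
  rw [← sq] at h
  refine (funext fun w => ?_ : (fun w => ((‖q w‖ ^ 2 : ℝ) : ℂ)) = _) ▸ h
  push_cast
  exact (Complex.mul_conj' (q w)).symm

theorem P2_AB_u {q : Ω → ℂ} {ε : ℝ} (hε : 0 < ε) (hq : AB q ε) :
    AB (fun w => ((1 - ‖q w‖ ^ 2 / ε ^ 2 : ℝ) : ℂ)) 2 := by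
  have h := AB_smul (((ε ^ 2)⁻¹ : ℝ) : ℂ) (P2_AB_nsq hq)
  rw [Complex.norm_real, Real.norm_of_nonneg (by positivity),
    inv_mul_cancel₀ (by positivity)] at h
  have h2 := AB_sub (AB_const (Ω := Ω) 1) h
  rw [norm_one] at h2
  have e : (fun w => ((1 - ‖q w‖ ^ 2 / ε ^ 2 : ℝ) : ℂ))
      = fun w => (1 : ℂ) - (((ε ^ 2)⁻¹ : ℝ) : ℂ) * ((‖q w‖ ^ 2 : ℝ) : ℂ) := by
    funext w
    push_cast
    ring
  rw [e]
  exact AB_mono h2 (by norm_num)

end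

theorem P2_AB_wN {Ω : Type*} [AddCommGroup Ω] [Finite Ω] {q : Ω → ℂ} {ε : ℝ} (hε : 0 < ε)
    (hq : AB q ε) (N : ℕ) : AB (fun w => (wN ε N (q w) : ℂ)) (1 + 2 ^ N) := by
  have h := AB_sub (AB_const (Ω := Ω) 1) (AB_pow (P2_AB_u hε hq) N)
  rw [norm_one] at h
  have e : (fun w => (wN ε N (q w) : ℂ))
      = fun w => (1 : ℂ) - ((1 - ‖q w‖ ^ 2 / ε ^ 2 : ℝ) : ℂ) ^ N := by
    funext w
    unfold wN
    push_cast
    ring
  rw [e]
  exact h

theorem P2_AB_hN {Ω : Type*} [AddCommGroup Ω] [Finite Ω] {q : Ω → ℂ} {ε : ℝ} (hε : 0 < ε)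
    (hq : AB q ε) (N : ℕ) : AB (fun w => hN ε N (q w)) (2 ^ N) := by
  have h1 := AB_smul (((ε ^ 2)⁻¹ : ℝ) : ℂ) (AB_pow hq 2)
  rw [Complex.norm_real, Real.norm_of_nonneg (by positivity),
    inv_mul_cancel₀ (by positivity)] at h1
  have h2 := AB_sum (Finset.range N) (fun j _ => AB_pow (P2_AB_u hε hq) j)
  have h3 := AB_mul h1 h2
  have e : (fun w => hN ε N (q w))
      = fun w => ((((ε ^ 2)⁻¹ : ℝ) : ℂ) * q w ^ 2)
        * ∑ j ∈ Finset.range N, ((1 - ‖q w‖ ^ 2 / ε ^ 2 : ℝ) : ℂ) ^ j := by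
    funext w
    unfold hN
    push_cast
    ring
  rw [e]
  refine AB_mono h3 ?_
  rw [one_mul]
  have := mul_neg_geom_sum (2 : ℝ) N
  linarith

theorem P2_AB_f0 {Ω : Type*} [AddCommGroup Ω] [Finite Ω] {a q d : Ω → ℂ} {A ε : ℝ}
    (ha : AB a A) (hq : AB q ε) (hd : AB d ε) :
    AB (fun w => (f0 (a w) (q w) (d w) : ℂ)) (2 * ε ^ 2 + 2 * A * ε) := by
  have h1 := AB_sub (P2_AB_nsq hd) (P2_AB_nsq hq)
  have h2 := AB_mul ha (AB_star hq)
  have h3 := AB_add h2 (AB_star h2)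
  have h4 := AB_sub h1 h3
  have e : (fun w => (f0 (a w) (q w) (d w) : ℂ))
      = fun w => (((‖d w‖ ^ 2 : ℝ) : ℂ) - ((‖q w‖ ^ 2 : ℝ) : ℂ))
        - (a w * star (q w) + star (a w * star (q w))) := by
    funext w
    have := Complex.add_conj (a w * star (q w))
    change a w * star (q w) + star (a w * star (q w)) = _ at this
    rw [this]
    unfold f0
    push_cast
    ring
  rw [e]
  exact AB_mono h4 (by linarith)

/-- indicator of `w = 0` on `ZMod p` -/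
theorem P2_AB_ind0 (p : ℕ) [NeZero p] : AB (fun t : ZMod p => if t = 0 then (1 : ℂ) else 0) 1 := by
  refine ⟨fun _ => (p : ℂ)⁻¹, fun t => ?_, ?_⟩
  · have hp : (p : ℂ) ≠ 0 := Nat.cast_ne_zero.2 (NeZero.ne p)
    rw [← Finset.mul_sum, AddChar.sum_apply_eq_ite, ZMod.card]
    split_ifs with h
    · rw [inv_mul_cancel₀ hp]
      exact if_pos h
    · rw [mul_zero]
      exact if_neg h
  · have hp : (p : ℝ) ≠ 0 := Nat.cast_ne_zero.2 (NeZero.ne p)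
    rw [Finset.sum_const, Finset.card_univ, AddChar.card_eq, ZMod.card, norm_inv,
      Complex.norm_natCast, nsmul_eq_mul, mul_inv_cancel₀ hp]

theorem P2_AB_ind {p : ℕ} [NeZero p] {Ω : Type*} [AddCommGroup Ω] [Finite Ω] (e : Ω →+ ZMod p) :
    AB (fun w => if e w = 0 then (1 : ℂ) else 0) 1 := by
  have h := AB_comp (P2_AB_ind0 p) e 0
  simpa using h

theorem P2_sum (n : ℕ) : ∑ k ∈ Finset.range n, ((k : ℝ) + 1) * (1 / 2) ^ k
    = 4 - (2 * n + 4) * (1 / 2) ^ n := by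
  induction n with
  | zero => norm_num
  | succ n ih =>
    rw [Finset.sum_range_succ, ih]
    push_cast
    ring

theorem P2_sum_bc (C n : ℕ) : ∑ j : Kap C n, ‖((bc j : ℝ) : ℂ)‖ ≤ 8 * C := by
  have h1 : ∀ j : Kap C n, ‖((bc j : ℝ) : ℂ)‖ = (1 / 2) ^ (j.1 : ℕ) := by
    intro j
    rw [Complex.norm_real, bc, norm_mul, norm_pow]
    have : ‖(if j.2.2 then (1 : ℝ) else -1)‖ = 1 := by split_ifs <;> simp
    rw [this, one_mul]
    norm_num
  simp_rw [h1]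
  rw [Fintype.sum_sigma]
  simp only [Finset.sum_const, Finset.card_univ, Fintype.card_prod, Fintype.card_fin,
    Fintype.card_bool, nsmul_eq_mul]
  have h2 : ∀ k : Fin n, ((C * ((k : ℕ) + 1) * 2 : ℕ) : ℝ) * (1 / 2) ^ (k : ℕ)
      = (fun k : ℕ => 2 * C * (((k : ℝ) + 1) * (1 / 2) ^ k)) k := by
    intro k
    push_cast
    ring
  rw [Finset.sum_congr rfl fun k _ => h2 k, Fin.sum_univ_eq_sum_range
    (fun k : ℕ => 2 * C * (((k : ℝ) + 1) * (1 / 2) ^ k)) n, ← Finset.mul_sum, P2_sum]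
  have h3 : 0 ≤ (2 * (n : ℝ) + 4) * (1 / 2) ^ n := by positivity
  have h4 : (0 : ℝ) ≤ C := Nat.cast_nonneg C
  nlinarith

theorem P2_AB_A1 {p C n : ℕ} [NeZero p] {Ω : Type*} [AddCommGroup Ω] [Finite Ω]
    (e : Ω →+ Om1 p C n) : AB (fun w => ((A1 (e w) : ℝ) : ℂ)) (8 * C) := by
  have h := AB_sum (Finset.univ : Finset (Kap C n)) (fun j _ =>
    AB_smul ((bc j : ℝ) : ℂ) (P2_AB_ind ((Pi.evalAddMonoidHom (fun _ : Kap C n => ZMod p) j).comp e)))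
  simp only [mul_one] at h
  have e1 : (fun w => ((A1 (e w) : ℝ) : ℂ)) = fun w => ∑ j : Kap C n, ((bc j : ℝ) : ℂ) *
      (if ((Pi.evalAddMonoidHom (fun _ : Kap C n => ZMod p) j).comp e) w = 0 then (1 : ℂ) else 0) := by
    funext w
    unfold A1
    push_cast
    refine Finset.sum_congr rfl fun j _ => ?_
    by_cases hj : e w j = 0 <;> simp [hj]
  rw [e1]
  exact AB_mono h (P2_sum_bc C n)

/-- `AB` norm of `a` -/
theorem P2_AB_aa (p C n m : ℕ) [Fact p.Prime] : AB (aa : Om p C n m → ℂ) (16 * C) := by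
  have h1 := P2_AB_A1 (AddMonoidHom.fst (Om1 p C n) (Om1 p C n × Omm p m))
  have h2 := P2_AB_A1 ((AddMonoidHom.fst (Om1 p C n) (Omm p m)).comp
    (AddMonoidHom.snd (Om1 p C n) (Om1 p C n × Omm p m)))
  have h3 := AB_add h1 (AB_smul Complex.I h2)
  rw [Complex.norm_I, one_mul] at h3
  have e : (aa : Om p C n m → ℂ) = fun w =>
      ((A1 (AddMonoidHom.fst (Om1 p C n) (Om1 p C n × Omm p m) w) : ℝ) : ℂ) +
      Complex.I * ((A1 ((AddMonoidHom.fst (Om1 p C n) (Omm p m)).comp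
    (AddMonoidHom.snd (Om1 p C n) (Om1 p C n × Omm p m)) w) : ℝ) : ℂ) := by
    funext w
    unfold aa
    rw [mul_comm Complex.I]
    rfl
  rw [e]
  exact AB_mono h3 (by linarith)

/-- centred indicator -/
noncomputable def P2_g (p : ℕ) (t : ZMod p) : ℝ := (if t = 0 then 1 else 0) - 1 / p

theorem P2_sum_g (p : ℕ) [NeZero p] : ∑ t : ZMod p, P2_g p t = 0 := by
  unfold P2_g
  rw [Finset.sum_sub_distrib, Finset.sum_ite_eq' Finset.univ (0 : ZMod p) (fun _ => (1 : ℝ))]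
  have hp : (p : ℝ) ≠ 0 := Nat.cast_ne_zero.2 (NeZero.ne p)
  simp [ZMod.card]

theorem P2_abs_g (p : ℕ) [NeZero p] (t : ZMod p) : P2_g p t ^ 2 ≤ 1 := by
  unfold P2_g
  have hp : (1 : ℝ) ≤ p := by exact_mod_cast Nat.one_le_iff_ne_zero.2 (NeZero.ne p)
  have h1 : (0 : ℝ) ≤ 1 / p := by positivity
  have h2 : (1 : ℝ) / p ≤ 1 := by rw [div_le_one (by linarith)]; exact hp
  split_ifs
  · nlinarith
  · nlinarith

theorem P2_cross {p m : ℕ} [NeZero p] (i j : Fin m) (hij : i ≠ j) :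
    ∑ v : Omm p m, P2_g p (v i) * P2_g p (v j) = 0 := by
  classical
  rw [← Equiv.sum_comp (Equiv.funSplitAt i (ZMod p)).symm, Fintype.sum_prod_type]
  have : ∀ (t : ZMod p) (v : {j // j ≠ i} → ZMod p),
      P2_g p ((Equiv.funSplitAt i (ZMod p)).symm (t, v) i)
        * P2_g p ((Equiv.funSplitAt i (ZMod p)).symm (t, v) j)
      = P2_g p t * P2_g p (v ⟨j, hij.symm⟩) := by
    intro t v
    simp [Equiv.funSplitAt, Equiv.piSplitAt, hij.symm]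
  simp_rw [this]
  rw [← Finset.sum_mul_sum, P2_sum_g, zero_mul]

theorem P2_moment {p m : ℕ} [NeZero p] :
    ∑ v : Omm p m, (∑ i, P2_g p (v i)) ^ 2 ≤ m * Fintype.card (Omm p m) := by
  classical
  have h1 : ∀ v : Omm p m, (∑ i, P2_g p (v i)) ^ 2 = ∑ i, ∑ j, P2_g p (v i) * P2_g p (v j) := by
    intro v
    rw [sq, Finset.sum_mul_sum]
  simp_rw [h1]
  rw [Finset.sum_comm]
  have h2 : ∀ i : Fin m, ∑ v : Omm p m, ∑ j, P2_g p (v i) * P2_g p (v j)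
      ≤ Fintype.card (Omm p m) := by
    intro i
    rw [Finset.sum_comm, Finset.sum_eq_single i (fun j _ hj => P2_cross i j hj.symm)
      (fun h => absurd (Finset.mem_univ i) h)]
    calc ∑ v : Omm p m, P2_g p (v i) * P2_g p (v i) ≤ ∑ v : Omm p m, (1 : ℝ) :=
          Finset.sum_le_sum fun v _ => by rw [← sq]; exact P2_abs_g p (v i)
      _ = Fintype.card (Omm p m) := by simp
  calc ∑ i : Fin m, ∑ v : Omm p m, ∑ j, P2_g p (v i) * P2_g p (v j)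
      ≤ ∑ i : Fin m, (Fintype.card (Omm p m) : ℝ) := Finset.sum_le_sum fun i _ => h2 i
    _ = m * Fintype.card (Omm p m) := by simp

/-- second moment of `zf` -/
theorem P2_zf (p m : ℕ) [Fact p.Prime] (hm : 0 < m) (δ : ℝ) (hδ : 0 < δ) :
    𝔼 v : Omm p m, ‖((zf δ v : ℝ) : ℂ)‖ ≤ δ / Real.sqrt m ∧
    𝔼 v : Omm p m, (zf δ v) ^ 2 ≤ δ ^ 2 / m := by
  have hm' : (0 : ℝ) < m := Nat.cast_pos.2 hm
  have hp : (p : ℝ) ≠ 0 := Nat.cast_ne_zero.2 (NeZero.ne p)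
  have hz : ∀ v : Omm p m, zf δ v = δ / (3 * m) * ∑ i, P2_g p (v i) := by
    intro v
    unfold zf XX P2_g
    rw [Finset.sum_sub_distrib]
    simp
    left
    field_simp
  have hcard : (0 : ℝ) < Fintype.card (Omm p m) := Nat.cast_pos.2 Fintype.card_pos
  have h2 : 𝔼 v : Omm p m, (zf δ v) ^ 2 ≤ δ ^ 2 / m := by
    rw [Fintype.expect_eq_sum_div_card]
    simp_rw [hz, mul_pow]
    rw [← Finset.mul_sum, div_le_iff₀ hcard]
    calc (δ / (3 * m)) ^ 2 * ∑ v : Omm p m, (∑ i, P2_g p (v i)) ^ 2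
        ≤ (δ / (3 * m)) ^ 2 * (m * Fintype.card (Omm p m)) :=
          mul_le_mul_of_nonneg_left P2_moment (by positivity)
      _ = δ ^ 2 / m * Fintype.card (Omm p m) / 9 := by field_simp; ring
      _ ≤ δ ^ 2 / m * Fintype.card (Omm p m) := by
          have : 0 ≤ δ ^ 2 / m * Fintype.card (Omm p m) := by positivity
          linarith
  refine ⟨?_, h2⟩
  have h3 : (𝔼 v : Omm p m, ‖((zf δ v : ℝ) : ℂ)‖) ^ 2 ≤ 𝔼 v : Omm p m, (zf δ v) ^ 2 := by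
    rw [Fintype.expect_eq_sum_div_card, Fintype.expect_eq_sum_div_card, div_pow,
      div_le_div_iff₀ (by positivity) hcard]
    have := sq_sum_le_card_mul_sum_sq (s := (Finset.univ : Finset (Omm p m)))
      (f := fun v => ‖((zf δ v : ℝ) : ℂ)‖)
    have h4 : ∑ v : Omm p m, ‖((zf δ v : ℝ) : ℂ)‖ ^ 2 = ∑ v : Omm p m, (zf δ v) ^ 2 := by
      refine Finset.sum_congr rfl fun v _ => ?_
      rw [Complex.norm_real, Real.norm_eq_abs, sq_abs]
    rw [h4, Finset.card_univ] at this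
    nlinarith
  have h5 : 0 ≤ 𝔼 v : Omm p m, ‖((zf δ v : ℝ) : ℂ)‖ :=
    Finset.expect_nonneg fun v _ => norm_nonneg _
  have h6 : (δ / Real.sqrt m) ^ 2 = δ ^ 2 / m := by
    rw [div_pow, Real.sq_sqrt hm'.le]
  refine (sq_le_sq₀ h5 (by positivity)).1 ?_
  rw [h6]
  exact h3.trans h2

end Pool.Agent.helper28.OC
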