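import Pool.Agent.helper28.OC.Base

/-!
CV project, module P1: a pointwise inequality.
-/

open scoped BigOperators

namespace Pool.Agent.helper28.OC

open L1G

theorem P1_real {ρ α s P K : ℝ} (hρ : 0 < ρ) (hα : 0 ≤ α) (hs : 0 ≤ s) (hP : |P| ≤ α * ρ)
    (hK : 10 ≤ K) (hKα : K * α ≤ ρ) (hs2 : s ^ 2 = ρ ^ 2 + 4 * P + 4 * α ^ 2) :
    (s - ρ) ^ 2 ≤ 4 * (P / ρ) ^ 2 + 12 * α ^ 2 / K := by
  set R := P / ρ with hR
  have hPR : P = R * ρ := by rw [hR]; field_simp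
  have hRα : |R| ≤ α := by
    rw [hR, abs_div, abs_of_pos hρ, div_le_iff₀ hρ]
    exact hP
  obtain ⟨hR1, hR2⟩ := abs_le.1 hRα
  rw [hPR] at hs2
  have h10 : 10 * α ≤ ρ := by nlinarith
  set e := s - ρ - 2 * R with he
  have hs3 : s = ρ + 2 * R + e := by rw [he]; ring
  have hbase : 0.8 * ρ ≤ ρ + 2 * R := by nlinarith
  have hRR : R ^ 2 ≤ α ^ 2 := by nlinarith
  have he0 : 0 ≤ e := by
    have : (ρ + 2 * R) ≤ s := by
      refine (sq_le_sq₀ (by nlinarith) hs).1 ?_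
      rw [hs2]
      nlinarith
    linarith
  have hprod : e * (s + (ρ + 2 * R)) = 4 * α ^ 2 - 4 * R ^ 2 := by
    rw [hs3] at hs2 ⊢
    nlinarith
  have h1 : e * (1.6 * ρ) ≤ 4 * α ^ 2 := by
    have : e * (1.6 * ρ) ≤ e * (s + (ρ + 2 * R)) := by
      refine mul_le_mul_of_nonneg_left ?_ he0
      linarith
    nlinarith [sq_nonneg R]
  have h2 : K * e ≤ 2.5 * α := by
    rcases hα.eq_or_lt with h0 | h0
    · have : e * (1.6 * ρ) ≤ 0 := by rw [← h0] at h1; simpa using h1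
      have : e ≤ 0 := by
        by_contra hc
        push Not at hc
        have := mul_pos hc (by linarith : 0 < 1.6 * ρ)
        linarith
      have : e = 0 := le_antisymm this he0
      rw [this, ← h0]
      simp
    · have h3 : e * (1.6 * (K * α)) ≤ 4 * α ^ 2 :=
        (mul_le_mul_of_nonneg_left (by linarith) he0).trans h1
      have h4 : (K * e) * α ≤ (2.5 * α) * α := by nlinarith
      exact le_of_mul_le_mul_right h4 h0
  have h5 : e ≤ 0.25 * α := by nlinarith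
  have hK0 : 0 < K := by linarith
  have h6 : K * (s - ρ) ^ 2 ≤ K * (4 * R ^ 2) + 12 * α ^ 2 := by
    have h7 : (s - ρ) = 2 * R + e := by rw [he]; ring
    rw [h7]
    have h8 : R * (K * e) ≤ α * (2.5 * α) := by
      have : R * (K * e) ≤ α * (K * e) := mul_le_mul_of_nonneg_right hR2 (by positivity)
      have : α * (K * e) ≤ α * (2.5 * α) := mul_le_mul_of_nonneg_left h2 hα
      linarith
    have h9 : (K * e) * e ≤ (2.5 * α) * (0.25 * α) :=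
      mul_le_mul h2 h5 he0 (by positivity)
    nlinarith
  have h10 : (s - ρ) ^ 2 ≤ (K * (4 * R ^ 2) + 12 * α ^ 2) / K := by
    rw [le_div_iff₀ hK0]
    linarith
  calc (s - ρ) ^ 2 ≤ (K * (4 * R ^ 2) + 12 * α ^ 2) / K := h10
    _ = 4 * R ^ 2 + 12 * α ^ 2 / K := by field_simp

theorem P1_norm_w (a q : ℂ) : ‖q + 2 * a‖ ^ 2 = ‖q‖ ^ 2 + 4 * (a * star q).re + 4 * ‖a‖ ^ 2 := by
  rw [← Complex.normSq_eq_norm_sq, ← Complex.normSq_eq_norm_sq, ← Complex.normSq_eq_norm_sq]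
  simp only [Complex.normSq_apply, Complex.add_re, Complex.add_im, Complex.mul_re, Complex.mul_im,
    Complex.star_def, Complex.conj_re, Complex.conj_im, Complex.re_ofNat, Complex.im_ofNat]
  ring

theorem P1_re_sq (a q : ℂ) :
    (star (a ^ 2) * q ^ 2).re = 2 * (a * star q).re ^ 2 - ‖a‖ ^ 2 * ‖q‖ ^ 2 := by
  rw [← Complex.normSq_eq_norm_sq, ← Complex.normSq_eq_norm_sq]
  simp only [sq, Complex.normSq_apply, Complex.mul_re, Complex.mul_im,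
    Complex.star_def, Complex.conj_re, Complex.conj_im, map_mul]
  ring

/-- module P1 (independent) -/
theorem P1_pointwise (a q d z : ℂ) (ε K : ℝ) (N : ℕ) (hε : 0 < ε) (hK : 10 ≤ K) (hq : ‖q‖ ≤ ε)
    (h : d ^ 2 = q ^ 2 + 2 * a * q - z) :
    -‖z‖ ≤ f0 a q d ∧ f0 a q d ≤ ‖z‖ + 2 * ‖a‖ ^ 2 ∧
    ‖a‖ ^ 2 * wN ε N q - (star (a ^ 2) * hN ε N q).re - 6 * ‖a‖ ^ 2 / K
      - 2 * N * K ^ 2 * ‖a‖ ^ 4 / ε ^ 2 - ‖z‖ ≤ f0 a q d := by
  have hd : ‖d‖ ^ 2 = ‖q * (q + 2 * a) - z‖ := by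
    rw [← norm_pow, h]
    congr 1
    ring
  have hd1 : ‖q‖ * ‖q + 2 * a‖ - ‖z‖ ≤ ‖d‖ ^ 2 := by
    rw [hd, ← norm_mul]
    exact norm_sub_norm_le _ _
  have hd2 : ‖d‖ ^ 2 ≤ ‖q‖ * ‖q + 2 * a‖ + ‖z‖ := by
    rw [hd, ← norm_mul]
    exact norm_sub_le _ _
  have hw := P1_norm_w a q
  have hP : |(a * star q).re| ≤ ‖a‖ * ‖q‖ := by
    have := Complex.abs_re_le_norm (a * star q)
    rwa [norm_mul, norm_star] at this
  set P := (a * star q).re with hPdef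
  set α := ‖a‖ with hα
  set ρ := ‖q‖ with hρ
  set s := ‖q + 2 * a‖ with hs
  have hα0 : 0 ≤ α := norm_nonneg _
  have hρ0 : 0 ≤ ρ := norm_nonneg _
  have hs0 : 0 ≤ s := norm_nonneg _
  have hf : f0 a q d = ‖d‖ ^ 2 - ρ ^ 2 - 2 * P := rfl
  have hDeq : ρ * s - ρ ^ 2 - 2 * P = 2 * α ^ 2 - (s - ρ) ^ 2 / 2 := by nlinarith
  have hD0 : (s - ρ) ^ 2 ≤ 4 * α ^ 2 := by
    have h1 : |s - ρ| ≤ ‖(q + 2 * a) - q‖ := abs_norm_sub_norm_le _ _
    have h2 : (q + 2 * a) - q = 2 * a := by ring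
    rw [h2, norm_mul, Complex.norm_ofNat] at h1
    have h3 := abs_nonneg (s - ρ)
    rw [← sq_abs]
    nlinarith
  have hfl : 2 * α ^ 2 - (s - ρ) ^ 2 / 2 - ‖z‖ ≤ f0 a q d := by
    rw [hf]; linarith
  have hz0 : 0 ≤ ‖z‖ := norm_nonneg _
  refine ⟨by linarith, by rw [hf]; nlinarith [sq_nonneg (s - ρ)], ?_⟩
  -- the third inequality
  have hu1 : 0 ≤ ρ ^ 2 / ε ^ 2 := by positivity
  have hu2 : ρ ^ 2 / ε ^ 2 ≤ 1 := by
    rw [div_le_one (by positivity)]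
    exact pow_le_pow_left₀ hρ0 hq 2
  set u := ρ ^ 2 / ε ^ 2 with hu
  set S := ∑ j ∈ Finset.range N, (1 - u) ^ j with hSdef
  have hS0 : 0 ≤ S := Finset.sum_nonneg fun j _ => pow_nonneg (by linarith) j
  have hwN : wN ε N q = u * S := by
    have := mul_neg_geom_sum (1 - u) N
    rw [sub_sub_cancel] at this
    rw [hSdef, this]
    rfl
  have hwN1 : wN ε N q ≤ 1 := by
    have : 0 ≤ (1 - u) ^ N := pow_nonneg (by linarith) N
    have h2 : wN ε N q = 1 - (1 - u) ^ N := rfl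
    linarith
  have hwNN : wN ε N q ≤ N * u := by
    have h2 : wN ε N q = 1 - (1 - u) ^ N := rfl
    have h3 := one_add_mul_le_pow (a := -u) (by linarith) N
    have h4 : (1 + -u) = 1 - u := by ring
    rw [h4] at h3
    linarith
  have hhN : hN ε N q = q ^ 2 * ((S / ε ^ 2 : ℝ) : ℂ) := by
    unfold hN
    have hS : (∑ j ∈ Finset.range N, ((1 - ‖q‖ ^ 2 / ε ^ 2 : ℝ) : ℂ) ^ j) = (S : ℂ) := by
      rw [hSdef, ← hρ, ← hu, Complex.ofReal_sum]
      exact Finset.sum_congr rfl fun j _ => (Complex.ofReal_pow _ _).symm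
    rw [hS]
    push_cast
    ring
  have hre : (star (a ^ 2) * hN ε N q).re = (2 * P ^ 2 - α ^ 2 * ρ ^ 2) * (S / ε ^ 2) := by
    rw [hhN, ← mul_assoc, Complex.re_mul_ofReal, P1_re_sq]
  have hmain : α ^ 2 * wN ε N q - (star (a ^ 2) * hN ε N q).re
      = 2 * (α ^ 2 * ρ ^ 2 - P ^ 2) * (S / ε ^ 2) := by
    rw [hre, hwN, hu]
    ring
  have hε2 : 0 < ε ^ 2 := by positivity
  have hSε : 0 ≤ S / ε ^ 2 := by positivity
  have herr1 : 0 ≤ 6 * α ^ 2 / K := by positivity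
  have herr2 : 0 ≤ 2 * N * K ^ 2 * α ^ 4 / ε ^ 2 := by positivity
  rw [hmain]
  by_cases hcase : K * α ≤ ρ ∧ 0 < ρ
  · obtain ⟨hc1, hc2⟩ := hcase
    have hreal := P1_real hc2 hα0 hs0 hP hK hc1 hw
    have hB : 2 * (α ^ 2 * ρ ^ 2 - P ^ 2) * (S / ε ^ 2) ≤ 2 * (α ^ 2 - (P / ρ) ^ 2) := by
      have h1 : 2 * (α ^ 2 * ρ ^ 2 - P ^ 2) * (S / ε ^ 2)
          = 2 * (α ^ 2 - (P / ρ) ^ 2) * wN ε N q := by
        rw [hwN, hu]
        field_simp
      rw [h1]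
      have h2 : 0 ≤ α ^ 2 - (P / ρ) ^ 2 := by
        have : |P / ρ| ≤ α := by
          rw [abs_div, abs_of_pos hc2, div_le_iff₀ hc2]
          exact hP
        have h3 := abs_nonneg (P / ρ)
        rw [← sq_abs (P / ρ)]
        nlinarith
      nlinarith
    have h12 : 12 * α ^ 2 / K = 2 * (6 * α ^ 2 / K) := by ring
    rw [h12] at hreal
    linarith
  · have hsmall : ρ ≤ K * α := by
      by_contra hc
      push Not at hc
      exact hcase ⟨hc.le, lt_of_le_of_lt (by positivity) hc⟩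
    have h1 : 2 * (α ^ 2 * ρ ^ 2 - P ^ 2) * (S / ε ^ 2) ≤ 2 * α ^ 2 * wN ε N q := by
      have : 2 * α ^ 2 * wN ε N q = 2 * (α ^ 2 * ρ ^ 2) * (S / ε ^ 2) := by
        rw [hwN, hu]; ring
      rw [this]
      refine mul_le_mul_of_nonneg_right ?_ hSε
      nlinarith [sq_nonneg P]
    have h2 : 2 * α ^ 2 * wN ε N q ≤ 2 * α ^ 2 * (N * u) :=
      mul_le_mul_of_nonneg_left hwNN (by positivity)
    have h3 : 2 * α ^ 2 * (N * u) ≤ 2 * N * K ^ 2 * α ^ 4 / ε ^ 2 := by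
      have h4 : u ≤ K ^ 2 * α ^ 2 / ε ^ 2 := by
        rw [hu]
        refine div_le_div_of_nonneg_right ?_ hε2.le
        rw [← mul_pow]
        exact pow_le_pow_left₀ hρ0 hsmall 2
      have h5 : 2 * α ^ 2 * (N * u) ≤ 2 * α ^ 2 * (N * (K ^ 2 * α ^ 2 / ε ^ 2)) := by
        gcongr
      have h6 : 2 * α ^ 2 * (N * (K ^ 2 * α ^ 2 / ε ^ 2)) = 2 * N * K ^ 2 * α ^ 4 / ε ^ 2 := by
        ring
      linarith
    linarith

end Pool.Agent.helper28.OC
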